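import Pool.Agent.U562.LS.Eight

/-!
# The light-segment set can have positive Lebesgue measure
-/

set_option autoImplicit false

open MeasureTheory Metric Set
open scoped ENNReal

namespace Pool.Agent.Results.MP_2eaabb_an.FatLightSet

open Pool.Agent.U562.BI (E InS)
open Pool.Agent.U562.LS

/-- For every `m ≥ 3`, every nonempty bounded open `Ω ⊆ ℝᵐ` and every `η > 0` there is
`ρ ∈ L¹(Ω)` for which the minimiser `u` of `I_ρ` on `𝒴_0(Ω)` has a light-segment set `K` with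
`|Ω \ K| ≤ η` and `ℋ^(m-1)(K) = ∞`. -/
theorem result (m : ℕ) (hm : 3 ≤ m) (Ω : Set (E m)) (hO : IsOpen Ω)
    (hb : Bornology.IsBounded Ω) (hne : Ω.Nonempty) (η : ℝ) (hη : 0 < η) :
    InS Ω (fun _ => 0) ∧
    ∃ ρ u : E m → ℝ, Integrable ρ ∧ Minimises Ω (fun _ => 0) ρ u ∧
      volume (Ω \ lightSet Ω u) ≤ ENNReal.ofReal η ∧
      Measure.hausdorffMeasure ((m : ℝ) - 1) (lightSet Ω u) = ∞ := by
  obtain ⟨n, rfl⟩ : ∃ n, m = n + 3 := ⟨m - 3, by omega⟩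
  obtain ⟨ρ, u, h1, h2, h3, h4⟩ := main hO hb hne hη
  refine ⟨inS_zero Ω, ρ, u, h1, h2, h3, ?_⟩
  have e : ((n + 3 : ℕ) : ℝ) - 1 = (n : ℝ) + 2 := by
    push_cast
    ring
  rw [e]
  exact h4

end Pool.Agent.Results.MP_2eaabb_an.FatLightSet
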